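import Pool.Agent.Lib.helper9.BorsukUlam

namespace Pool.Agent.Results.MP_cd78f9_gt.Quadratic
open scoped RealInnerProductSpace

theorem result (n m : ℕ) (φ : Projectivization ℝ (EuclideanSpace ℝ (Fin n)) → EuclideanSpace ℝ (Fin m))
    (hc : Continuous fun v : {v : EuclideanSpace ℝ (Fin n) // v ≠ 0} =>
      φ (Projectivization.mk ℝ v.1 v.2))
    (hd : ∀ (x y : EuclideanSpace ℝ (Fin n)) (hx : x ≠ 0) (hy : y ≠ 0),
      dist (φ (Projectivization.mk ℝ x hx)) (φ (Projectivization.mk ℝ y hy)) =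
        Metric.diam (Set.range φ) ↔ ⟪x, y⟫ = 0) :
    n ^ 2 / 4 ≤ m + 1 := by
  by_contra hm
  obtain ⟨k, l, hn, hkl⟩ : ∃ k l, k + l = n ∧ m + 1 < k * l := by
    refine ⟨n / 2, n - n / 2, by omega, (not_le.1 hm).trans_le ?_⟩
    obtain ⟨a, rfl | rfl⟩ := Nat.even_or_odd' n
    · rw [show 2 * a / 2 = a by omega, show 2 * a - a = a by omega,
        show (2 * a) ^ 2 = 4 * (a * a) by ring]
      omega
    · rw [show (2 * a + 1) / 2 = a by omega, show 2 * a + 1 - a = a + 1 by omega,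
        show (2 * a + 1) ^ 2 = 4 * (a * (a + 1)) + 1 by ring]
      omega
  subst hn
  let e := (finSumFinEquiv (m := k) (n := l)).symm
  let v : Fin k → (Fin k → Fin l → ℝ) → EuclideanSpace ℝ (Fin (k + l)) := fun i A =>
    WithLp.toLp 2 fun t => Sum.elim (Pi.single i 1) (A i) (e t)
  let w : Fin l → (Fin k → Fin l → ℝ) → EuclideanSpace ℝ (Fin (k + l)) := fun j A =>
    WithLp.toLp 2 fun t => Sum.elim (fun i => -A i j) (Pi.single j 1) (e t)
  have v0 : ∀ i A, v i A ≠ 0 := fun i A h => by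
    simpa [v, e] using congrArg (fun x => x (finSumFinEquiv (Sum.inl i))) h
  have w0 : ∀ j A, w j A ≠ 0 := fun j A h => by
    simpa [w, e] using congrArg (fun x => x (finSumFinEquiv (Sum.inr j))) h
  have vw : ∀ i j A B, ⟪v i B, w j A⟫ = B i j - A i j := fun i j A B => by
    simp only [v, w, PiLp.inner_apply, RCLike.inner_apply, conj_trivial]
    rw [e.sum_comp (fun s => Sum.elim (fun i => -A i j) (Pi.single j 1) s *
      Sum.elim (Pi.single i 1) (B i) s), Fintype.sum_sum_type]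
    simp [Pi.single_apply]
    ring
  let P : Fin k → (Fin k → Fin l → ℝ) → EuclideanSpace ℝ (Fin m) := fun i A =>
    φ (Projectivization.mk ℝ (v i A) (v0 i A))
  have vc : ∀ i, Continuous (v i) := fun i => by
    refine (PiLp.continuous_toLp 2 fun _ : Fin (k + l) => ℝ).comp (continuous_pi fun t => ?_)
    rcases e t with s | s
    · exact continuous_const
    · simp only [Sum.elim_inr]; fun_prop
  have Pc : ∀ i, Continuous (P i) := fun i =>
    hc.comp (f := fun A => ⟨v i A, v0 i A⟩) ((vc i).subtype_mk (v0 i))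
  let b : (Fin k → Fin l → ℝ) → EuclideanSpace ℝ (Fin m) × ℝ := fun A =>
    (∑ i, P i A, ∑ i, ‖P i A‖ ^ 2)
  have bc : Continuous b := by simp only [b]; fun_prop
  obtain ⟨A, h1, h2⟩ := Lib.helper9.BorsukUlam.borsuk_ulam (E := Fin k → Fin l → ℝ) 
    (Or.inr (by simpa [Module.finrank_pi_fintype] using hkl))
    (fun A => b A - b (-A)) (by fun_prop) fun A _ => by simp
  obtain ⟨e1, e2⟩ := Prod.ext_iff.1 (sub_eq_zero.1 h2)
  simp only [b] at e1 e2
  have : A = 0 := funext fun i => funext fun j => by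
    have hb : Bornology.IsBounded (Set.range φ) := by
      by_contra h
      exact v0 i A (inner_self_eq_zero.1 ((hd _ _ (v0 i A) (v0 i A)).1 (by
        rw [Metric.diam_eq_zero_of_unbounded h, dist_self])))
    set D := Metric.diam (Set.range φ)
    let y := φ (Projectivization.mk ℝ (w j A) (w0 j A))
    have s : ∀ B, ∑ i, (D ^ 2 - dist (P i B) y ^ 2) =
        k * (D ^ 2 - ‖y‖ ^ 2) - ∑ i, ‖P i B‖ ^ 2 + 2 * ⟪∑ i, P i B, y⟫ := fun B => by
      simp only [dist_eq_norm, norm_sub_sq_real, sum_inner, Finset.sum_sub_distrib,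
        Finset.sum_add_distrib, Finset.sum_const, Finset.card_univ, Fintype.card_fin,
        nsmul_eq_mul, Finset.mul_sum]
      ring
    have s1 : ∑ i, (D ^ 2 - dist (P i (-A)) y ^ 2) = 0 := by
      rw [s, ← e1, ← e2, ← s]
      exact Finset.sum_eq_zero fun i _ => by
        rw [(hd _ _ (v0 i A) (w0 j A)).2 (by rw [vw, sub_self]), sub_self]
    have s2 := (Finset.sum_eq_zero_iff_of_nonneg fun i _ => sub_nonneg.2 (pow_le_pow_left₀
      dist_nonneg (Metric.dist_le_diam_of_mem hb ⟨_, rfl⟩ ⟨_, rfl⟩) 2)).1 s1 i (Finset.mem_univ _)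
    have s3 := (hd _ _ (v0 i (-A)) (w0 j A)).1
      ((pow_left_inj₀ dist_nonneg Metric.diam_nonneg two_ne_zero).1 (sub_eq_zero.1 s2).symm)
    rw [vw] at s3
    simp only [Pi.neg_apply, Pi.zero_apply] at s3 ⊢
    linarith
  simp [this] at h1

end Pool.Agent.Results.MP_cd78f9_gt.Quadratic
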